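import Pool.Agent.W710.DP.Stm1

set_option autoImplicit false
set_option linter.all false

namespace Pool.Agent.W154.DP

open Finsupp
open Pool.Agent.W710.DP

/-! ### naturality -/

theorem bdL_map {Z Y : Type} (F : Z → Y) (t : List Z) :
    bdL (t.map F) = (bdL t).mapDomain (List.map F) := by
  induction t with
  | nil => simp [bdL]
  | cons x t ih =>
    rw [List.map_cons, bdL, bdL, ih, mapDomain_add, mapDomain_single, ← mapDomain_comp,
      ← mapDomain_comp]
    rfl

theorem bd_mapc {Z Y : Type} (F : Z → Y) (z : List Z →₀ ZMod 2) :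
    bd (mapc F z) = mapc F (bd z) := by
  unfold bd mapc
  rw [Finsupp.linearCombination_mapDomain]
  have h : (Finsupp.linearCombination (ZMod 2) (bdL (Z := Z)) z).mapDomain (List.map F) =
      Finsupp.lmapDomain (ZMod 2) (ZMod 2) (List.map F)
        (Finsupp.linearCombination (ZMod 2) (bdL (Z := Z)) z) := rfl
  rw [h, Finsupp.apply_linearCombination]
  congr 2
  funext t
  exact bdL_map F t

theorem ev_map {Z Y : Type} (F : Z → Y) (hs : List (Y → ZMod 2)) (t : List Z) :
    ev hs (t.map F) = ev (hs.map (fun h p => h (F p))) t := by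
  induction hs generalizing t with
  | nil => simp [ev]
  | cons h hs ih =>
    rcases t with _ | ⟨x, _ | ⟨y, t⟩⟩
    · simp [ev]
    · simp [ev]
    · have := ih (y :: t)
      simp only [List.map_cons] at this ⊢
      simp only [ev]
      rw [this]

theorem pr_mapc {Z Y : Type} (F : Z → Y) (hs : List (Y → ZMod 2)) (z : List Z →₀ ZMod 2) :
    pr (ev hs) (mapc F z) = pr (ev (hs.map (fun h p => h (F p)))) z := by
  unfold pr mapc
  rw [Finsupp.linearCombination_mapDomain]
  congr 2
  funext t
  exact ev_map F hs t

theorem mem_mapc {Z Y : Type} (F : Z → Y) (z : List Z →₀ ZMod 2) (t : List Y)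
    (h : t ∈ (mapc F z).support) : ∃ u ∈ z.support, u.map F = t := by
  classical
  have := Finsupp.mapDomain_support h
  rw [Finset.mem_image] at this
  exact this

/-! ### the functional -/

theorem Sw_append (b : ℝ) (w : List Letter) (l : Letter) (ζ : Cfg) :
    Sw b (w ++ [l]) ζ = Sw b w ζ + ((ζ.2 w.length - b) * (ζ.1 (w.length + 1) - ζ.1 w.length) -
      l.G (ζ.1 w.length) (ζ.2 w.length)) := by
  induction w generalizing ζ with
  | nil => simp [Sw]
  | cons l' w ih =>
    rw [List.cons_append, Sw, Sw, ih (shc 1 ζ)]
    simp only [shc, List.length_cons]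
    ring

theorem Sw_congr (b : ℝ) (w : List Letter) (ζ η : Cfg) (h1 : ∀ i ≤ w.length, ζ.1 i = η.1 i)
    (h2 : ∀ i < w.length, ζ.2 i = η.2 i) : Sw b w ζ = Sw b w η := by
  induction w generalizing ζ η with
  | nil => simp [Sw]
  | cons l w ih =>
    rw [Sw, Sw, h1 0 (by simp), h1 1 (by simp), h2 0 (by simp)]
    rw [ih (shc 1 ζ) (shc 1 η)]
    · intro i hi
      exact h1 (i + 1) (by simp only [List.length_cons]; omega)
    · intro i hi
      exact h2 (i + 1) (by simp only [List.length_cons]; omega)

/-! ### the map -/

/-- the extended configuration -/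
noncomputable def FF (b T : ℝ) (N : ℕ) (p : Cfg × ℝ) : Cfg :=
  (fun i => if i ≤ N then p.1.1 i else p.1.1 N + p.2,
    fun i => if i < N then p.1.2 i else max 0 (min T (b - p.2)))

theorem Sw_FF (b T : ℝ) (w : List Letter) (l : Letter) (p : Cfg × ℝ) :
    Sw b (w ++ [l]) (FF b T w.length p) = Sw b w p.1 +
      ((max 0 (min T (b - p.2)) - b) * p.2 - l.G (p.1.1 w.length) (max 0 (min T (b - p.2)))) := by
  rw [Sw_append]
  have e1 : Sw b w (FF b T w.length p) = Sw b w p.1 := by
    apply Sw_congr
    · intro i hi; simp [FF, hi]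
    · intro i hi; simp [FF, hi]
  rw [e1]
  simp [FF]

theorem clamp_le (b T r : ℝ) (hb : 0 < b) (hT : b < T) : (max 0 (min T (b - r)) - b) * r ≤ 0 := by
  rcases le_total 0 r with h | h
  · have : max 0 (min T (b - r)) ≤ b := max_le hb.le (min_le_of_right_le (by linarith))
    nlinarith
  · have : b ≤ max 0 (min T (b - r)) := le_max_of_le_right (le_min hT.le (by linarith))
    nlinarith

theorem clamp_lip (b T r r' : ℝ) :
    |max 0 (min T (b - r)) - max 0 (min T (b - r'))| ≤ |r - r'| := by
  calc |max 0 (min T (b - r)) - max 0 (min T (b - r'))| ≤ |min T (b - r) - min T (b - r')| :=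
        abs_max_sub_max_le_abs _ _ _ |> (fun h => by simpa [max_comm] using h)
    _ ≤ |(b - r) - (b - r')| := by
        have := abs_min_sub_min_le_max T (b - r) T (b - r')
        simpa using this
    _ = |r - r'| := by rw [show (b - r) - (b - r') = -(r - r') by ring, abs_neg]

theorem hw_succ (N : ℕ) : hw (N + 1) = hw N ++ [hy N] := by
  unfold hw
  rw [List.range_succ, List.map_append]
  rfl

theorem hw_length (N : ℕ) : (hw N).length = N := by
  unfold hw; simp

theorem hw_FF (b T : ℝ) (N : ℕ) :
    (hw (N + 1)).map (fun h (p : Cfg × ℝ) => h (FF b T N p)) =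
      (hw N).map (fun f (p : Cfg × ℝ) => f p.1) ++
      ([fun r : ℝ => if 0 < r then (1 : ZMod 2) else 0]).map (fun f (p : Cfg × ℝ) => f p.2) := by
  rw [hw_succ, List.map_append]
  congr 1
  · unfold hw
    rw [List.map_map, List.map_map]
    apply List.map_congr_left
    intro i hi
    rw [List.mem_range] at hi
    funext p
    have e1 : (FF b T N p).1 (i + 1) = p.1.1 (i + 1) := if_pos (show i + 1 ≤ N by omega)
    have e2 : (FF b T N p).1 i = p.1.1 i := if_pos (show i ≤ N by omega)
    show hy i (FF b T N p) = hy i p.1
    unfold hy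
    rw [e1, e2]
  · simp only [List.map_cons, List.map_nil]
    congr 1
    funext p
    simp [hy, FF]

theorem t_base (h1 : S_prod) (h2 : S_path) : S_base := by
  intro b T e w hpar
  obtain ⟨he, heb, heT⟩ := hpar
  have hb : 0 < b := he.trans heb
  have hT : b < T := by linarith
  induction w using List.reverseRecOn with
  | nil =>
    intro _ M ε hε
    refine ⟨Finsupp.single [((fun _ => 0, fun _ => 0) : Cfg)] 1, ?_, ?_, ?_⟩
    · intro t ht
      have ht' := Finsupp.support_single_subset ht
      rw [Finset.mem_singleton] at ht'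
      subst ht'
      refine ⟨by simp [hw], ?_, ?_⟩
      · intro p hp q hq
        rw [List.mem_singleton] at hp hq
        subst hp; subst hq
        refine ⟨fun i _ => ?_, fun i hi => ?_⟩
        · simp [hε.le]
        · simp [hε.le]
      · intro p hp
        refine ⟨fun i hi => absurd hi (Nat.not_lt_zero i), ?_⟩
        simp [Sw]
    · intro t ht p hp
      have e1 : bd (Finsupp.single [((fun _ => 0, fun _ => 0) : Cfg)] (1 : ZMod 2)) =
          Finsupp.single [] 1 := by
        simp [bd, bdL, Finsupp.linearCombination_single]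
      rw [e1] at ht
      have ht' := Finsupp.support_single_subset ht
      rw [Finset.mem_singleton] at ht'
      subst ht'
      simp at hp
    · simp [pr, Finsupp.linearCombination_single, hw, ev]
  | append_singleton w l ih =>
    intro hg M ε hε
    have hgw : GoodW T e w := fun l' hl' => hg l' (List.mem_append_left _ hl')
    have hgl : Good T e l := hg l (List.mem_append_right _ (List.mem_singleton_self _))
    set N := w.length with hN
    -- parameters
    set β := min b (T - b) with hβ
    have hβ0 : 0 < β := lt_min hb (by linarith)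
    set R := T + (|M| + (N : ℝ) / 4 + 1) / β with hR
    have hnum : 0 < |M| + (N : ℝ) / 4 + 1 := by positivity
    have hRT : T ≤ R := by
      rw [hR]; have := div_pos hnum hβ0; linarith
    have hR0 : 0 < R := by linarith
    have hβR : |M| + (N : ℝ) / 4 + 1 ≤ β * R := by
      rw [hR, mul_add, mul_div_cancel₀ _ hβ0.ne']
      have : 0 < β * T := mul_pos hβ0 (by linarith)
      linarith
    obtain ⟨z, hz1, hz2, hz3⟩ := ih hgw (M + 1) (ε / 2) (by linarith)
    obtain ⟨c, hc1, hc2, hc3⟩ := h2 R hR0 (ε / 2) (by linarith)
    obtain ⟨hp1, hp2, hp3⟩ := h1 Cfg ℝ (hw N) [fun r : ℝ => if 0 < r then (1 : ZMod 2) else 0] z c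
      (by simp) (fun s hs => by rw [(hz1 s hs).1]) (fun t ht => by rw [(hc1 t ht).1]; rfl)
    have hlen : (w ++ [l]).length = N + 1 := by simp [hN]
    have hsmall : ∀ x s, |l.G x s| ≤ 1 / 4 := fun x s => (hgl.small x s).1
    have hSw : ∀ p : Cfg × ℝ, Sw b (w ++ [l]) (FF b T N p) ≤ Sw b w p.1 + 1 / 4 := by
      intro p
      rw [hN, Sw_FF]
      have a1 := clamp_le b T p.2 hb hT
      have a2 := (abs_le.1 (hsmall (p.1.1 w.length) (max 0 (min T (b - p.2))))).1
      linarith
    refine ⟨mapc (FF b T N) (ezc z c), ?_, ?_, ?_⟩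
    · intro t' ht'
      obtain ⟨u, hu, rfl⟩ := mem_mapc _ _ _ ht'
      obtain ⟨hul, s, hs, t, ht, hst⟩ := hp1 u hu
      refine ⟨?_, ?_, ?_⟩
      · rw [List.length_map, hul, hlen, hw_length, hw_length]; rfl
      · intro p' hp' q' hq'
        rw [List.mem_map] at hp' hq'
        obtain ⟨p, hp, rfl⟩ := hp'
        obtain ⟨q, hq, rfl⟩ := hq'
        have hcl := (hz1 s hs).2.1 p.1 (hst p hp).1 q.1 (hst q hq).1
        have hcr := (hc1 t ht).2.1 p.2 (hst p hp).2 q.2 (hst q hq).2
        rw [hlen]
        refine ⟨fun i hi => ?_, fun i hi => ?_⟩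
        · simp only [FF]
          by_cases hiN : i ≤ N
          · rw [if_pos hiN, if_pos hiN]
            exact (hcl.1 i hiN).trans (by linarith)
          · rw [if_neg hiN, if_neg hiN]
            have a1 := hcl.1 N le_rfl
            calc |p.1.1 N + p.2 - (q.1.1 N + q.2)| = |(p.1.1 N - q.1.1 N) + (p.2 - q.2)| := by
                  congr 1; ring
              _ ≤ |p.1.1 N - q.1.1 N| + |p.2 - q.2| := abs_add_le _ _
              _ ≤ ε := by linarith
        · simp only [FF]
          by_cases hiN : i < N
          · rw [if_pos hiN, if_pos hiN]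
            exact (hcl.2 i hiN).trans (by linarith)
          · rw [if_neg hiN, if_neg hiN]
            exact (clamp_lip b T p.2 q.2).trans (hcr.trans (by linarith))
      · intro p' hp'
        rw [List.mem_map] at hp'
        obtain ⟨p, hp, rfl⟩ := hp'
        have hom := (hz1 s hs).2.2 p.1 (hst p hp).1
        rw [hlen]
        refine ⟨fun i hi => ?_, ?_⟩
        · simp only [FF]
          by_cases hiN : i < N
          · rw [if_pos hiN]; exact hom.1 i hiN
          · rw [if_neg hiN]
            exact ⟨le_max_left _ _, max_le (by linarith) (min_le_left _ _)⟩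
        · refine (hSw p).trans ?_
          have := hom.2
          push_cast
          linarith
    · intro t' ht' p' hp'
      rw [bd_mapc] at ht'
      obtain ⟨u, hu, rfl⟩ := mem_mapc _ _ _ ht'
      rw [List.mem_map] at hp'
      obtain ⟨p, hp, rfl⟩ := hp'
      rcases hp2 u hu with ⟨s, hs, t, ht, hst⟩ | ⟨s, hs, t, ht, hst⟩
      · have := hz2 s hs p.1 (hst p hp).1
        refine (hSw p).trans ?_
        linarith
      · have hom := (hz1 s hs).2.2 p.1 (hst p hp).1
        have hp2' : p.2 = R ∨ p.2 = -R := by
          rcases hc2 t ht with h | h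
          · left; have := (hst p hp).2; rw [h, List.mem_singleton] at this; exact this
          · right; have := (hst p hp).2; rw [h, List.mem_singleton] at this; exact this
        have hkey : (max 0 (min T (b - p.2)) - b) * p.2 ≤ - (β * R) := by
          rcases hp2' with h | h
          · rw [h]
            have e1 : max 0 (min T (b - R)) = 0 :=
              max_eq_left (min_le_of_right_le (by linarith))
            rw [e1]
            have : β ≤ b := min_le_left _ _
            nlinarith
          · rw [h]
            have e1 : max 0 (min T (b - -R)) = T := by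
              rw [min_eq_left (by linarith), max_eq_right (by linarith)]
            rw [e1]
            have : β ≤ T - b := min_le_right _ _
            nlinarith
        have a2 := (abs_le.1 (hsmall (p.1.1 w.length) (max 0 (min T (b - p.2))))).1
        have a3 := hom.2
        have a4 := neg_abs_le M
        have e2 : Sw b (w ++ [l]) (FF b T N p) = _ := Sw_FF b T w l p
        rw [e2]
        have a5 := le_abs_self M
        linarith
    · rw [hlen, pr_mapc, hw_FF, hp3, hz3, hc3, one_mul]

end Pool.Agent.W154.DP
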